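import Pool.Agent.P8H14.CN.Stm

set_option autoImplicit false

namespace Pool.Agent.P8H61.CN

open Finset Filter NumberField Pool.Agent.H38R2.CG Pool.Agent.P8H14.CN
open scoped Classical

lemma card_primes (X : ℕ) (hX : 2 ≤ X) :
    (((Icc 2 X).filter Nat.Prime).card : ℝ) ≤ (2 * Real.log 4 + 2) * X / Real.log X := by
  have hX1 : (1 : ℝ) < X := by exact_mod_cast (by omega : 1 < X)
  have hl : 0 < Real.log X := Real.log_pos hX1
  have h1 : ((Icc 2 X).filter Nat.Prime).card ≤ Nat.primeCounting X := by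
    rw [← Nat.primesLE_card_eq_primeCounting]
    apply card_le_card
    intro p hp
    rw [mem_filter, mem_Icc] at hp
    exact Nat.mem_primesLE.mpr ⟨hp.1.2, hp.2⟩
  have h2 := Chebyshev.pi_le_log4_mul_div hX1
  rw [Nat.floor_natCast, Real.log_sqrt (by linarith)] at h2
  have h3 : (((Icc 2 X).filter Nat.Prime).card : ℝ) ≤ (Nat.primeCounting X : ℝ) := by exact_mod_cast h1
  have hs : 0 < Real.sqrt X := Real.sqrt_pos.mpr (by linarith)
  have hs2 : Real.sqrt X * Real.sqrt X = X := Real.mul_self_sqrt (by linarith)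
  have h4 : Real.log X ≤ 2 * Real.sqrt X := by
    have := Real.log_le_rpow_div (show (0 : ℝ) ≤ X by linarith) (show (0 : ℝ) < 1 / 2 by norm_num)
    rw [← Real.sqrt_eq_rpow] at this
    linarith
  have h5 : Real.sqrt X ≤ 2 * X / Real.log X := by
    rw [le_div_iff₀ hl]
    nlinarith
  have h6 : Real.log 4 * X / (Real.log X / 2) = 2 * Real.log 4 * X / Real.log X := by
    field_simp
  rw [h6] at h2
  calc (((Icc 2 X).filter Nat.Prime).card : ℝ) ≤ 2 * Real.log 4 * X / Real.log X + 2 * X / Real.log X := by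
        linarith
    _ = _ := by ring

lemma pow_exp (a ε : ℝ) (ha : 0 ≤ a) (hε : 0 < ε) :
    ∃ B : ℝ, 0 < B ∧ ∀ l : ℝ, 0 < l → l ^ a * Real.exp (-(l ^ ε)) ≤ B := by
  obtain ⟨n, hn⟩ := exists_nat_ge (a / ε)
  rw [div_le_iff₀ hε] at hn
  refine ⟨(n.factorial : ℝ), by exact_mod_cast n.factorial_pos, ?_⟩
  intro l hl
  have hy : 0 < l ^ ε := Real.rpow_pos_of_pos hl _
  have hf : (1 : ℝ) ≤ n.factorial := by exact_mod_cast n.factorial_pos
  by_cases h1 : 1 ≤ l
  · have h2 : l ^ a ≤ (l ^ ε) ^ n := by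
      rw [← Real.rpow_natCast, ← Real.rpow_mul hl.le]
      exact Real.rpow_le_rpow_of_exponent_le h1 (by linarith)
    have h3 := Real.pow_div_factorial_le_exp (l ^ ε) hy.le n
    rw [div_le_iff₀ (by linarith)] at h3
    have h4 : Real.exp (l ^ ε) * Real.exp (-(l ^ ε)) = 1 := by
      rw [← Real.exp_add]; simp
    have he := Real.exp_pos (-(l ^ ε))
    calc l ^ a * Real.exp (-(l ^ ε)) ≤ (Real.exp (l ^ ε) * n.factorial) * Real.exp (-(l ^ ε)) :=
          mul_le_mul_of_nonneg_right (h2.trans h3) he.le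
      _ = n.factorial * (Real.exp (l ^ ε) * Real.exp (-(l ^ ε))) := by ring
      _ = n.factorial := by rw [h4, mul_one]
  · rw [not_le] at h1
    have h2 : l ^ a ≤ 1 := Real.rpow_le_one hl.le h1.le ha
    have h3 : Real.exp (-(l ^ ε)) ≤ 1 := by
      rw [Real.exp_le_one_iff]; linarith
    have h4 : 0 ≤ l ^ a := Real.rpow_nonneg hl.le _
    have h5 : 0 ≤ Real.exp (-(l ^ ε)) := (Real.exp_pos _).le
    calc l ^ a * Real.exp (-(l ^ ε)) ≤ 1 * 1 := mul_le_mul h2 h3 h5 (by norm_num)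
      _ ≤ n.factorial := by linarith

lemma hq_cases (d : ℕ) : hq d = 0 ∨ ∃ (K : Type) (_ : Field K) (_ : NumberField K),
    Module.finrank ℚ K = 2 ∧ (∃ x : K, x ^ 2 = (d : K)) ∧ classNumber K = hq d := by
  rcases Set.eq_empty_or_nonempty {n : ℕ | ∃ (K : Type) (_ : Field K) (_ : NumberField K),
    Module.finrank ℚ K = 2 ∧ (∃ x : K, x ^ 2 = (d : K)) ∧ classNumber K = n} with h | h
  · left
    unfold hq
    rw [h]
    exact Nat.sInf_empty
  · right
    exact Nat.sInf_mem h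

/-- the bound for one prime -/
lemma one_prime (C δ : ℝ) (hC : 0 < C) (hδ : 0 < δ) (hδ2 : δ < 1 / 2)
    (htrv : ∀ (K : Type) [Field K] [NumberField K] (d : ℕ), 1 < d → Squarefree d →
      Module.finrank ℚ K = 2 → (∃ x : K, x ^ 2 = (d : K)) →
        (classNumber K : ℝ) ≤ C * Real.sqrt (d : ℝ) * Real.log d)
    (X p : ℕ) (hX : 2 ≤ X) (hp : p.Prime) (hpX : p ≤ X) :
    (hq p : ℝ) ≤ (if (p : ℝ) ≤ Real.sqrt X then C * Real.sqrt X * Real.log X else 0) +
      (if ¬ GoodC δ p then C * Real.sqrt X * Real.log X else 0) +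
      4 * Real.sqrt X / Real.log X ^ (3 / 2 - δ) := by
  have hX1 : (1 : ℝ) < X := by exact_mod_cast (by omega : 1 < X)
  have hl : 0 < Real.log X := Real.log_pos hX1
  have hpX' : (p : ℝ) ≤ X := by exact_mod_cast hpX
  have hp1 : (1 : ℝ) < p := by exact_mod_cast hp.one_lt
  have hlp : 0 < Real.log p := Real.log_pos hp1
  have hs : 0 < Real.sqrt X := Real.sqrt_pos.mpr (by linarith)
  have hsp : Real.sqrt p ≤ Real.sqrt X := Real.sqrt_le_sqrt hpX'
  have hA : 0 ≤ C * Real.sqrt X * Real.log X := by positivity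
  have hB : 0 ≤ 4 * Real.sqrt X / Real.log X ^ (3 / 2 - δ) := by positivity
  have hi1 : 0 ≤ (if (p : ℝ) ≤ Real.sqrt X then C * Real.sqrt X * Real.log X else 0) := by
    split_ifs
    · exact hA
    · exact le_rfl
  have hi2 : 0 ≤ (if ¬ GoodC δ p then C * Real.sqrt X * Real.log X else 0) := by
    split_ifs
    · exact le_rfl
    · exact hA
  rcases hq_cases p with h0 | ⟨K, i1, i2, hK1, hK2, hK3⟩
  · rw [h0]
    push_cast
    linarith
  · have hsq : Squarefree p := (Nat.prime_iff.mp hp).irreducible.squarefree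
    have ht : (hq p : ℝ) ≤ C * Real.sqrt X * Real.log X := by
      rw [← hK3]
      refine (htrv K p hp.one_lt hsq hK1 hK2).trans ?_
      have h1 : C * Real.sqrt p ≤ C * Real.sqrt X := mul_le_mul_of_nonneg_left hsp hC.le
      have h2 : Real.log p ≤ Real.log X := Real.log_le_log (by linarith) hpX'
      exact mul_le_mul h1 h2 hlp.le (by positivity)
    by_cases hc1 : (p : ℝ) ≤ Real.sqrt X
    · rw [if_pos hc1]
      linarith
    · by_cases hc2 : ¬ GoodC δ p
      · rw [if_pos hc2]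
        linarith
      · have hg : GoodC δ p := not_not.mp hc2
        have h3 := hg K hK1 hK2
        rw [hK3] at h3
        rw [not_le] at hc1
        have h4 : Real.log X / 2 ≤ Real.log p := by
          rw [← Real.log_sqrt (by linarith)]
          exact Real.log_le_log hs hc1.le
        have h5 : (Real.log X / 2) ^ (3 / 2 - δ) ≤ Real.log p ^ (3 / 2 - δ) :=
          Real.rpow_le_rpow (by linarith) h4 (by linarith)
        have h6 : (Real.log X / 2) ^ (3 / 2 - δ) = Real.log X ^ (3 / 2 - δ) / 2 ^ (3 / 2 - δ) :=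
          Real.div_rpow hl.le (by norm_num) _
        have h7 : (2 : ℝ) ^ (3 / 2 - δ) ≤ 4 := by
          calc (2 : ℝ) ^ (3 / 2 - δ) ≤ (2 : ℝ) ^ (2 : ℝ) :=
                Real.rpow_le_rpow_of_exponent_le (by norm_num) (by linarith)
            _ = 4 := by norm_num
        have h8 : 0 < (2 : ℝ) ^ (3 / 2 - δ) := by positivity
        have h9 : 0 < Real.log X ^ (3 / 2 - δ) := Real.rpow_pos_of_pos hl _
        have h10 : Real.log X ^ (3 / 2 - δ) / 4 ≤ Real.log p ^ (3 / 2 - δ) := by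
          refine le_trans ?_ (h6 ▸ h5)
          exact div_le_div_of_nonneg_left h9.le h8 h7
        have h11 : Real.sqrt p / Real.log p ^ (3 / 2 - δ) ≤ 4 * Real.sqrt X / Real.log X ^ (3 / 2 - δ) := by
          rw [show 4 * Real.sqrt X / Real.log X ^ (3 / 2 - δ) = Real.sqrt X / (Real.log X ^ (3 / 2 - δ) / 4) by
            field_simp]
          exact div_le_div₀ hs.le hsp (by positivity) h10
        linarith

theorem avg : S_FIN → S_TRV → S_AVG := by
  rintro hfin ⟨C, hC, htrv⟩ δ hδ hδ2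
  obtain ⟨M1, hM1⟩ := hfin δ hδ hδ2
  obtain ⟨B1, hB1, hb1⟩ := pow_exp (7 / 2 - δ) (δ / 16) (by linarith) (by linarith)
  obtain ⟨B2, hB2, hb2⟩ := pow_exp (7 / 2 - δ) 1 (by linarith) (by norm_num)
  refine ⟨C * (2 ^ (7 / 2 - δ) * B2) + C * |M1| * B1 + 4 * (2 * Real.log 4 + 2), ?_⟩
  intro X hX
  have hX1 : (1 : ℝ) < X := by exact_mod_cast (by omega : 1 < X)
  have hX0 : (0 : ℝ) < X := by linarith
  set l := Real.log X with hl'
  have hl : 0 < l := Real.log_pos hX1
  set s := Real.sqrt X with hs'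
  have hs : 0 < s := Real.sqrt_pos.mpr hX0
  have hss : s * s = X := Real.mul_self_sqrt hX0.le
  set A := l ^ (5 / 2 - δ) with hA'
  have hA : 0 < A := Real.rpow_pos_of_pos hl _
  have hX32 : (X : ℝ) ^ (3 / 2 : ℝ) = X * s := by
    rw [hs', Real.sqrt_eq_rpow, show (3 / 2 : ℝ) = 1 + 1 / 2 by norm_num, Real.rpow_add hX0, Real.rpow_one]
  have hA7 : l ^ (7 / 2 - δ) = l * A := by
    rw [hA', show (7 / 2 - δ) = 1 + (5 / 2 - δ) by ring, Real.rpow_add hl, Real.rpow_one]
  have hA3 : A = l * l ^ (3 / 2 - δ) := by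
    rw [hA', show (5 / 2 - δ) = 1 + (3 / 2 - δ) by ring, Real.rpow_add hl, Real.rpow_one]
  have hB3 : 0 < l ^ (3 / 2 - δ) := Real.rpow_pos_of_pos hl _
  rw [hX32, le_div_iff₀ hA]
  -- the three counts
  have hn1 : ((((Icc 2 X).filter Nat.Prime).filter (fun p : ℕ => (p : ℝ) ≤ s)).card : ℝ) ≤ s := by
    have h1 : ((Icc 2 X).filter Nat.Prime).filter (fun p : ℕ => (p : ℝ) ≤ s) ⊆ Icc 1 ⌊s⌋₊ := by
      intro p hp
      rw [mem_filter, mem_filter, mem_Icc] at hp
      rw [mem_Icc]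
      exact ⟨by omega, Nat.le_floor hp.2⟩
    have h2 := card_le_card h1
    rw [Nat.card_Icc, Nat.add_sub_cancel] at h2
    calc ((((Icc 2 X).filter Nat.Prime).filter (fun p : ℕ => (p : ℝ) ≤ s)).card : ℝ) ≤ (⌊s⌋₊ : ℝ) := by
          exact_mod_cast h2
      _ ≤ s := Nat.floor_le hs.le
  have hn2 : ((((Icc 2 X).filter Nat.Prime).filter (fun p : ℕ => ¬ GoodC δ p)).card : ℝ) ≤
      |M1| * X * Real.exp (-(l ^ (δ / 16))) := by
    have h1 : ((Icc 2 X).filter Nat.Prime).filter (fun p : ℕ => ¬ GoodC δ p) ⊆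
        (Icc 2 X).filter (fun d => Squarefree d ∧ ¬ GoodC δ d) := by
      intro p hp
      rw [mem_filter, mem_filter] at hp
      rw [mem_filter]
      exact ⟨hp.1.1, (Nat.prime_iff.mp hp.1.2).irreducible.squarefree, hp.2⟩
    have h2 : ((((Icc 2 X).filter Nat.Prime).filter (fun p : ℕ => ¬ GoodC δ p)).card : ℝ) ≤
        (((Icc 2 X).filter (fun d => Squarefree d ∧ ¬ GoodC δ d)).card : ℝ) := by
      exact_mod_cast card_le_card h1
    refine h2.trans ((hM1 X hX).trans ?_)
    have h3 : M1 ≤ |M1| := le_abs_self _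
    have h4 : 0 < Real.exp (-(l ^ (δ / 16))) := Real.exp_pos _
    exact mul_le_mul_of_nonneg_right (mul_le_mul_of_nonneg_right h3 hX0.le) h4.le
  have hn3 := card_primes X hX
  rw [← hl'] at hn3
  have hD : 0 ≤ C * s * l := by positivity
  have hsum : ∑ p ∈ (Icc 2 X).filter Nat.Prime, (hq p : ℝ) ≤
      s * (C * s * l) + (|M1| * X * Real.exp (-(l ^ (δ / 16)))) * (C * s * l) +
        ((2 * Real.log 4 + 2) * X / l) * (4 * s / l ^ (3 / 2 - δ)) := by
    calc ∑ p ∈ (Icc 2 X).filter Nat.Prime, (hq p : ℝ)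
        ≤ ∑ p ∈ (Icc 2 X).filter Nat.Prime, ((if (p : ℝ) ≤ s then C * s * l else 0) +
          (if ¬ GoodC δ p then C * s * l else 0) + 4 * s / l ^ (3 / 2 - δ)) := by
          apply sum_le_sum
          intro p hp
          rw [mem_filter, mem_Icc] at hp
          exact one_prime C δ hC hδ hδ2 htrv X p hX hp.2 hp.1.2
      _ = ((((Icc 2 X).filter Nat.Prime).filter (fun p : ℕ => (p : ℝ) ≤ s)).card : ℝ) * (C * s * l) +
          ((((Icc 2 X).filter Nat.Prime).filter (fun p : ℕ => ¬ GoodC δ p)).card : ℝ) * (C * s * l) +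
          (((Icc 2 X).filter Nat.Prime).card : ℝ) * (4 * s / l ^ (3 / 2 - δ)) := by
          rw [sum_add_distrib, sum_add_distrib, sum_const, nsmul_eq_mul, ← sum_filter, ← sum_filter, sum_const,
            sum_const, nsmul_eq_mul, nsmul_eq_mul]
      _ ≤ _ := by
          have h4 : 0 ≤ 4 * s / l ^ (3 / 2 - δ) := by positivity
          have e1 := mul_le_mul_of_nonneg_right hn1 hD
          have e2 := mul_le_mul_of_nonneg_right hn2 hD
          have e3 := mul_le_mul_of_nonneg_right hn3 h4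
          linarith
  have hb1' := hb1 l hl
  rw [hA7] at hb1'
  have hb2' := hb2 (l / 2) (by linarith)
  rw [Real.rpow_one, Real.div_rpow hl.le (by norm_num), hA7] at hb2'
  have hes : Real.exp (-(l / 2)) * s = 1 := by
    have h1 : Real.exp l = X := Real.exp_log hX0
    have h2 : s = Real.exp (l / 2) := by
      rw [hs', ← h1, Real.sqrt_eq_rpow, ← Real.exp_mul]
      congr 1
      ring
    rw [h2, ← Real.exp_add]
    simp
  have h2p : 0 < (2 : ℝ) ^ (7 / 2 - δ) := by positivity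
  have hb3 : l * A ≤ 2 ^ (7 / 2 - δ) * B2 * s := by
    have h1 : l * A / 2 ^ (7 / 2 - δ) * Real.exp (-(l / 2)) * s ≤ B2 * s :=
      mul_le_mul_of_nonneg_right hb2' hs.le
    rw [mul_assoc, hes, mul_one, div_le_iff₀ h2p] at h1
    linarith
  calc (∑ p ∈ (Icc 2 X).filter Nat.Prime, (hq p : ℝ)) * A
      ≤ (s * (C * s * l) + (|M1| * X * Real.exp (-(l ^ (δ / 16)))) * (C * s * l) +
        ((2 * Real.log 4 + 2) * X / l) * (4 * s / l ^ (3 / 2 - δ))) * A :=
        mul_le_mul_of_nonneg_right hsum hA.le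
    _ = C * (s * s) * (l * A) + C * |M1| * X * s * ((l * A) * Real.exp (-(l ^ (δ / 16)))) +
        4 * (2 * Real.log 4 + 2) * (X * s) := by
        rw [hA3]
        field_simp
    _ ≤ C * (s * s) * (2 ^ (7 / 2 - δ) * B2 * s) + C * |M1| * X * s * B1 +
        4 * (2 * Real.log 4 + 2) * (X * s) := by
        have e1 : C * (s * s) * (l * A) ≤ C * (s * s) * (2 ^ (7 / 2 - δ) * B2 * s) :=
          mul_le_mul_of_nonneg_left hb3 (by positivity)
        have e2 : C * |M1| * X * s * ((l * A) * Real.exp (-(l ^ (δ / 16)))) ≤ C * |M1| * X * s * B1 :=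
          mul_le_mul_of_nonneg_left hb1' (by positivity)
        linarith
    _ = (C * (2 ^ (7 / 2 - δ) * B2) + C * |M1| * B1 + 4 * (2 * Real.log 4 + 2)) * (X * s) := by
        rw [hss]; ring

end Pool.Agent.P8H61.CN
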